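import Pool.Agent.P8H67.TD.Stm

/-!
# Project TD (helper67), package FIELD: an equivariant field of means on the fibres
-/

set_option autoImplicit false

open Set

namespace Pool.Agent.P8H70.TD

open Pool.Agent.P8H67.TD

theorem field : S_FIELD := by
  intro E Q Γ _ _ _ _ _ hol ρ π Ω hS hm
  classical
  have mulρ : ∀ a b u, ρ (a * b) u = ρ a (ρ b u) := by
    intro a b u
    rw [map_mul]; rfl
  have mulh : ∀ a b p, hol (a * b) p = hol a (hol b p) := by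
    intro a b p
    rw [map_mul]; rfl
  have oneρ : ∀ u, ρ 1 u = u := by
    intro u
    rw [map_one]; rfl
  have invρ : ∀ a u, ρ a⁻¹ (ρ a u) = u := by
    intro a u
    rw [← mulρ, inv_mul_cancel, oneρ]
  let r : Setoid Q :=
    { r := fun u v => ∃ γ, ρ γ u = v
      iseqv :=
        { refl := fun u => ⟨1, oneρ u⟩
          symm := by
            rintro u v ⟨γ, rfl⟩
            exact ⟨γ⁻¹, invρ γ u⟩
          trans := by
            rintro u v w ⟨γ, rfl⟩ ⟨δ, rfl⟩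
            exact ⟨δ * γ, mulρ δ γ u⟩ } }
  let rp : Q → Q := fun u => (Quotient.mk r u).out
  have hrp : ∀ u, ∃ γ, ρ γ (rp u) = u := fun u => Quotient.mk_out (s := r) u
  have hrp2 : ∀ γ u, rp (ρ γ u) = rp u := by
    intro γ u
    show (Quotient.mk r (ρ γ u)).out = (Quotient.mk r u).out
    congr 1
    exact Quotient.sound (s := r) ⟨γ⁻¹, invρ γ u⟩
  choose g hg using hrp
  have hb : ∀ v, ∃ b : E, v ∈ π '' Ω → b ∈ Ω ∧ π b = v := by
    intro v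
    by_cases h : v ∈ π '' Ω
    · obtain ⟨b, hb, hb2⟩ := h
      exact ⟨b, fun _ => ⟨hb, hb2⟩⟩
    · exact ⟨0, fun h' => absurd h' h⟩
  choose b hb using hb
  have hm' : ∀ v, ∃ m : (St ρ v → ℝ) → ℝ, v ∈ π '' Ω →
      (∀ f g : St ρ v → ℝ, Bd f → Bd g → m (fun γ => f γ + g γ) = m f + m g) ∧
      (∀ (c : ℝ) (f : St ρ v → ℝ), Bd f → m (fun γ => c * f γ) = c * m f) ∧ m (fun _ => 1) = 1 ∧
      (∀ (c : ℝ) (f : St ρ v → ℝ), Bd f → (∀ γ, f γ ≤ c) → m f ≤ c) ∧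
      ∀ (f : St ρ v → ℝ), Bd f → ∀ δ : St ρ v, m (fun γ => f (δ * γ)) = m f := by
    intro v
    by_cases h : v ∈ π '' Ω
    · obtain ⟨p, hp, rfl⟩ := h
      obtain ⟨m, hm2⟩ := hm p hp
      exact ⟨m, fun _ => hm2⟩
    · exact ⟨fun _ => 0, fun h' => absurd h' h⟩
  choose m hm' using hm'
  have hrp3 : ∀ u ∈ π '' Ω, rp u ∈ π '' Ω := by
    rintro u ⟨p, hp, rfl⟩
    refine ⟨hol (g (π p))⁻¹ p, hS.inv _ p hp, ?_⟩
    rw [hS.equi]
    conv_lhs => rw [← hg (π p)]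
    rw [hg (π p), ← invρ (g (π p)) (rp (π p)), hg (π p)]
  let N : ∀ v : Q, Γ → (E → ℝ) → ℝ := fun v a f =>
    m v (fun δ : St ρ v => f (hol (a * (δ : Γ)) (b v)))
  have bd : ∀ (v : Q) (a : Γ) (f : E → ℝ), Bd f →
      Bd (fun δ : St ρ v => f (hol (a * (δ : Γ)) (b v))) := by
    rintro v a f ⟨C, hC⟩
    exact ⟨C, fun δ => hC _⟩
  refine ⟨fun u f => N (rp u) (g u) f, ?_⟩
  intro u hu
  have hv := hrp3 u hu
  obtain ⟨h1, h2, h3, h4, h5⟩ := hm' (rp u) hv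
  refine ⟨?_, ?_, h3, ?_, ?_⟩
  · intro f k hf hk
    exact h1 _ _ (bd _ _ _ hf) (bd _ _ _ hk)
  · intro c f hf
    exact h2 c _ (bd _ _ _ hf)
  · intro c f hf hc
    refine h4 c _ (bd _ _ _ hf) fun δ => ?_
    obtain ⟨hbΩ, hbv⟩ := hb (rp u) hv
    refine hc _ (hS.inv _ _ hbΩ) ?_
    rw [hS.equi, hbv, mulρ]
    have : ρ (δ : Γ) (rp u) = rp u := δ.2
    rw [this, hg]
  · intro γ f hf
    show N (rp (ρ γ u)) (g (ρ γ u)) f = N (rp u) (g u) (fun p => f (hol γ p))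
    have hgu := hg (ρ γ u)
    rw [hrp2] at hgu ⊢
    have hε : (g (ρ γ u))⁻¹ * (γ * g u) ∈ St ρ (rp u) := by
      show ρ ((g (ρ γ u))⁻¹ * (γ * g u)) (rp u) = rp u
      rw [mulρ, mulρ, hg u]
      exact (congrArg _ hgu.symm).trans (invρ _ _)
    have h := h5 (fun δ : St ρ (rp u) => f (hol (g (ρ γ u) * (δ : Γ)) (b (rp u))))
      (bd _ _ _ hf) ⟨_, hε⟩
    show m (rp u) (fun δ : St ρ (rp u) => f (hol (g (ρ γ u) * (δ : Γ)) (b (rp u)))) =
      m (rp u) (fun δ : St ρ (rp u) => f (hol γ (hol (g u * (δ : Γ)) (b (rp u)))))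
    rw [← h]
    congr 1
    funext δ
    show f (hol (g (ρ γ u) * ((g (ρ γ u))⁻¹ * (γ * g u) * (δ : Γ))) (b (rp u))) = _
    rw [← mulh]
    congr 3
    group

end Pool.Agent.P8H70.TD
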